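import Mathlib

set_option autoImplicit false
set_option maxHeartbeats 400000
open MeasureTheory Set Filter Topology Metric
open scoped ENNReal Real

namespace Pool.Agent.H.MP_57350d_an

noncomputable def II (p : ℝ) (g : ℂ → ℂ) : ℝ≥0∞ :=
  ∫⁻ z in ball (0 : ℂ) 1, ENNReal.ofReal ((1 - ‖z‖) ^ (p - 1) * ‖g z‖ ^ p)

lemma wt0 (p : ℝ) {z : ℂ} (hz : z ∈ ball (0 : ℂ) 1) : 0 ≤ (1 - ‖z‖) ^ (p - 1) :=
  Real.rpow_nonneg (by linarith [mem_ball_zero_iff.1 hz]) _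

lemma II_congr (p : ℝ) {a b : ℂ → ℂ} (h : EqOn a b (ball 0 1)) : II p a = II p b :=
  setLIntegral_congr_fun measurableSet_ball fun z hz => by simp only [h hz]

lemma II_mono {p : ℝ} (hp : 0 ≤ p) {a b : ℂ → ℂ} {C : ℝ} (hC : 0 ≤ C)
    (h : ∀ z ∈ ball (0 : ℂ) 1, ‖a z‖ ≤ C * ‖b z‖) :
    II p a ≤ ENNReal.ofReal (C ^ p) * II p b := by
  unfold II
  rw [← lintegral_const_mul' _ _ ENNReal.ofReal_ne_top]
  apply setLIntegral_mono' measurableSet_ball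
  intro z hz
  rw [← ENNReal.ofReal_mul (by positivity), mul_left_comm, ← Real.mul_rpow hC (norm_nonneg _)]
  exact ENNReal.ofReal_le_ofReal (mul_le_mul_of_nonneg_left
    (Real.rpow_le_rpow (norm_nonneg _) (h z hz) hp) (wt0 p hz))

lemma add_pow_le {p : ℝ} (hp : 0 ≤ p) (x y : ℂ) :
    ‖x + y‖ ^ p ≤ 2 ^ p * (‖x‖ ^ p + ‖y‖ ^ p) := by
  have key : ∀ x y : ℂ, ‖x‖ ≤ ‖y‖ → ‖x + y‖ ^ p ≤ 2 ^ p * (‖x‖ ^ p + ‖y‖ ^ p) := by
    intro x y h
    have h1 : ‖x + y‖ ≤ 2 * ‖y‖ := by linarith [norm_add_le x y]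
    refine (Real.rpow_le_rpow (norm_nonneg _) h1 hp).trans ?_
    rw [Real.mul_rpow (by norm_num) (norm_nonneg _)]
    apply mul_le_mul_of_nonneg_left _ (by positivity)
    have : 0 ≤ ‖x‖ ^ p := by positivity
    linarith
  rcases le_total ‖x‖ ‖y‖ with h | h
  · exact key x y h
  · rw [add_comm x y, add_comm (‖x‖ ^ p)]; exact key y x h

lemma pt_add {p : ℝ} (hp : 0 ≤ p) {w : ℝ} (hw : 0 ≤ w) (x y : ℂ) :
    ENNReal.ofReal (w * ‖x + y‖ ^ p) ≤ ENNReal.ofReal (2 ^ p) *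
      (ENNReal.ofReal (w * ‖x‖ ^ p) + ENNReal.ofReal (w * ‖y‖ ^ p)) := by
  rw [← ENNReal.ofReal_add (by positivity) (by positivity), ← ENNReal.ofReal_mul (by positivity)]
  apply ENNReal.ofReal_le_ofReal
  have := mul_le_mul_of_nonneg_left (add_pow_le hp x y) hw
  linarith

lemma meas_int (p : ℝ) {a : ℂ → ℂ} (ha : Measurable a) :
    Measurable fun z : ℂ => ENNReal.ofReal ((1 - ‖z‖) ^ (p - 1) * ‖a z‖ ^ p) := by fun_prop

lemma II_add {p : ℝ} (hp : 0 ≤ p) {a b : ℂ → ℂ} (ha : Measurable a) :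
    II p (fun z => a z + b z) ≤ ENNReal.ofReal (2 ^ p) * (II p a + II p b) := by
  unfold II
  rw [← lintegral_add_left (meas_int p ha), ← lintegral_const_mul' _ _ ENNReal.ofReal_ne_top]
  apply setLIntegral_mono' measurableSet_ball
  intro z hz
  exact pt_add hp (wt0 p hz) _ _

lemma II_add_lt {p : ℝ} (hp : 0 ≤ p) {a b : ℂ → ℂ} (ha : Measurable a) (h1 : II p a ≠ ⊤)
    (h2 : II p b ≠ ⊤) : II p (fun z => a z + b z) ≠ ⊤ :=
  ne_top_of_le_ne_top (ENNReal.mul_ne_top ENNReal.ofReal_ne_top (ENNReal.add_ne_top.2 ⟨h1, h2⟩))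
    (II_add hp ha)

lemma tend_cmul {ι : Type} {l : Filter ι} {x y : ι → ℝ≥0∞} {c : ℝ≥0∞} (hc : c ≠ ⊤)
    (hy : Tendsto y l (𝓝 0)) (h : ∀ᶠ n in l, x n ≤ c * y n) : Tendsto x l (𝓝 0) := by
  have := ENNReal.Tendsto.const_mul (a := c) hy (Or.inr hc)
  rw [mul_zero] at this
  exact tendsto_of_tendsto_of_tendsto_of_le_of_le' tendsto_const_nhds this
    (Eventually.of_forall fun _ => zero_le) h

lemma II_add_tend {ι : Type} {l : Filter ι} {p : ℝ} (hp : 0 ≤ p) {a b : ι → ℂ → ℂ}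
    (ha : ∀ n, Measurable (a n)) (h1 : Tendsto (fun n => II p (a n)) l (𝓝 0))
    (h2 : Tendsto (fun n => II p (b n)) l (𝓝 0)) :
    Tendsto (fun n => II p (fun z => a n z + b n z)) l (𝓝 0) := by
  have := h1.add h2
  rw [add_zero] at this
  exact tend_cmul ENNReal.ofReal_ne_top this (Eventually.of_forall fun n => II_add hp (ha n))

lemma scale {Ψ : ℂ → ℝ≥0∞} (hΨ : Measurable Ψ) {s : ℝ} (h0 : 0 < s) (h1 : s ≤ 1) :
    ∫⁻ z in ball (0 : ℂ) 1, Ψ (s * z) ≤ ENNReal.ofReal ((s ^ 2)⁻¹) * ∫⁻ z in ball (0 : ℂ) 1, Ψ z := by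
  have h2 := Measure.map_addHaar_smul (volume : Measure ℂ) h0.ne'
  rw [Complex.finrank_real_complex, abs_of_pos (by positivity)] at h2
  have h3 := lintegral_map (μ := (volume : Measure ℂ)) (hΨ.indicator (measurableSet_ball
    (x := (0 : ℂ)) (ε := 1))) (measurable_const_smul s)
  rw [h2, lintegral_smul_measure, lintegral_indicator measurableSet_ball, smul_eq_mul] at h3
  rw [h3, ← lintegral_indicator measurableSet_ball]
  apply lintegral_mono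
  intro z
  beta_reduce
  by_cases hz : z ∈ ball (0 : ℂ) 1
  · have : s • z ∈ ball (0 : ℂ) 1 := by
      rw [mem_ball_zero_iff] at hz ⊢
      rw [norm_smul, Real.norm_of_nonneg h0.le]
      nlinarith [norm_nonneg z]
    rw [indicator_of_mem hz, indicator_of_mem this, Complex.real_smul]
  · rw [indicator_of_notMem hz]; exact zero_le

lemma pratt {μ : Measure ℂ} {F G : ℕ → ℂ → ℝ≥0∞} {g : ℂ → ℝ≥0∞} (hF : ∀ n, Measurable (F n))
    (hG : ∀ n, Measurable (G n)) (hle : ∀ n, ∀ᵐ x ∂μ, F n x ≤ G n x)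
    (h0 : ∀ᵐ x ∂μ, Tendsto (fun n => F n x) atTop (𝓝 0))
    (hg : ∀ᵐ x ∂μ, Tendsto (fun n => G n x) atTop (𝓝 (g x))) {c : ℕ → ℝ≥0∞}
    (hc : ∀ n, ∫⁻ x, G n x ∂μ ≤ c n) (hl : Tendsto c atTop (𝓝 (∫⁻ x, g x ∂μ)))
    (hfin : ∫⁻ x, g x ∂μ ≠ ⊤) : Tendsto (fun n => ∫⁻ x, F n x ∂μ) atTop (𝓝 0) := by
  rw [ENNReal.tendsto_nhds_zero]
  intro ε hε
  by_cases hε1 : ε = ⊤
  · exact Eventually.of_forall fun n => by rw [hε1]; exact le_top
  by_contra hcon
  rw [not_eventually] at hcon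
  obtain ⟨A, hA⟩ : ∃ A, A = ∫⁻ x, g x ∂μ := ⟨_, rfl⟩
  rw [← hA] at hl hfin
  have hh : ε / 2 ≠ 0 := (ENNReal.half_pos hε.ne').ne'
  have h1 : ∀ᶠ n in atTop, c n ≤ A + ε / 2 :=
    hl.eventually (ge_mem_nhds (ENNReal.lt_add_right hfin hh))
  have h2 : ∀ n, ∫⁻ x, (G n x - F n x) ∂μ + ∫⁻ x, F n x ∂μ = ∫⁻ x, G n x ∂μ := by
    intro n
    rw [← lintegral_add_right _ (hF n)]
    apply lintegral_congr_ae
    filter_upwards [hle n] with x hx
    exact tsub_add_cancel_of_le hx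
  have h3 : ∃ᶠ n in atTop, ∫⁻ x, (G n x - F n x) ∂μ + ε ≤ A + ε / 2 := by
    refine (hcon.and_eventually h1).mono fun n hn => ?_
    calc _ ≤ ∫⁻ x, (G n x - F n x) ∂μ + ∫⁻ x, F n x ∂μ := by gcongr; exact (not_le.1 hn.1).le
      _ ≤ _ := by rw [h2]; exact (hc n).trans hn.2
  have h4 := lintegral_liminf_le (μ := μ) (u := atTop) (f := fun n x => G n x - F n x)
    (fun n => (hG n).sub (hF n))
  have h5 : ∫⁻ x, liminf (fun n => G n x - F n x) atTop ∂μ = A := by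
    rw [hA]
    apply lintegral_congr_ae
    filter_upwards [h0, hg] with x a b
    have := ENNReal.Tendsto.sub b a (Or.inr ENNReal.zero_ne_top)
    rw [tsub_zero] at this
    exact this.liminf_eq
  rw [h5] at h4
  have h6 : A ≤ A + ε / 2 - ε := h4.trans (liminf_le_of_frequently_le'
    (h3.mono fun n hn => ENNReal.le_sub_of_add_le_right hε1 hn))
  obtain ⟨n, hn⟩ := h3.exists
  have h7 : ε ≤ A + ε / 2 := le_add_self.trans hn
  have h8 : A + ε ≤ A + ε / 2 := by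
    calc A + ε ≤ (A + ε / 2 - ε) + ε := by gcongr
      _ = _ := tsub_add_cancel_of_le h7
  rw [ENNReal.add_le_add_iff_left hfin] at h8
  exact absurd h8 (not_le.2 (ENNReal.half_lt_self hε.ne' hε1))

lemma smul_mem {s : ℝ} (h0 : 0 ≤ s) (h1 : s ≤ 1) {z : ℂ} (hz : z ∈ ball (0 : ℂ) 1) :
    (s : ℂ) * z ∈ ball (0 : ℂ) 1 := by
  rw [mem_ball_zero_iff] at hz ⊢
  rw [norm_mul, Complex.norm_real, Real.norm_of_nonneg h0]
  nlinarith [norm_nonneg z]

lemma wt_le {p : ℝ} (hp : 1 ≤ p) {s : ℝ} (h0 : 0 ≤ s) (h1 : s ≤ 1) {z : ℂ}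
    (hz : z ∈ ball (0 : ℂ) 1) : (1 - ‖z‖) ^ (p - 1) ≤ (1 - ‖(s : ℂ) * z‖) ^ (p - 1) := by
  rw [mem_ball_zero_iff] at hz
  apply Real.rpow_le_rpow (by linarith) _ (by linarith)
  rw [norm_mul, Complex.norm_real, Real.norm_of_nonneg h0]
  nlinarith [norm_nonneg z]

lemma termB {p : ℝ} (hp : 1 ≤ p) {h : ℂ → ℂ} (hm : Measurable h) (hc : ContinuousOn h (ball 0 1))
    (hI : II p h ≠ ⊤) {r : ℕ → ℝ} (hr0 : ∀ n, 0 < r n) (hr1 : ∀ n, r n ≤ 1)
    (hr : Tendsto r atTop (𝓝 1)) :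
    Tendsto (fun n => II p (fun z => (r n : ℂ) * h (r n * z) + -h z)) atTop (𝓝 0) := by
  have hp0 : 0 ≤ p := by linarith
  have hmr : ∀ n, Measurable fun z : ℂ => (r n : ℂ) * h (r n * z) := fun n =>
    (hm.comp (by fun_prop)).const_mul _
  have hlim : ∀ z ∈ ball (0 : ℂ) 1, Tendsto (fun n => (r n : ℂ) * h (r n * z)) atTop (𝓝 (h z)) := by
    intro z hz
    have a1 : Tendsto (fun n => (r n : ℂ)) atTop (𝓝 1) := by
      exact (Complex.continuous_ofReal.tendsto 1).comp hr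
    have a2 : Tendsto (fun n => (r n : ℂ) * z) atTop (𝓝 z) := by simpa using a1.mul_const z
    simpa using a1.mul ((hc.continuousAt (isOpen_ball.mem_nhds hz)).tendsto.comp a2)
  have e2 : ∫⁻ z in ball (0 : ℂ) 1, ENNReal.ofReal (2 ^ p) *
      (ENNReal.ofReal ((1 - ‖z‖) ^ (p - 1) * ‖h z‖ ^ p) +
        ENNReal.ofReal ((1 - ‖z‖) ^ (p - 1) * ‖-h z‖ ^ p)) =
      ENNReal.ofReal (2 ^ p) * (ENNReal.ofReal ((1 ^ 2)⁻¹) * II p h + II p h) := by
    rw [lintegral_const_mul' _ _ ENNReal.ofReal_ne_top, lintegral_add_left (meas_int p hm)]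
    simp [II]
  unfold II
  refine pratt (G := fun n z => ENNReal.ofReal (2 ^ p) *
      (ENNReal.ofReal ((1 - ‖z‖) ^ (p - 1) * ‖(r n : ℂ) * h (r n * z)‖ ^ p) +
        ENNReal.ofReal ((1 - ‖z‖) ^ (p - 1) * ‖-h z‖ ^ p)))
    (g := fun z => ENNReal.ofReal (2 ^ p) *
      (ENNReal.ofReal ((1 - ‖z‖) ^ (p - 1) * ‖h z‖ ^ p) +
        ENNReal.ofReal ((1 - ‖z‖) ^ (p - 1) * ‖-h z‖ ^ p)))
    (c := fun n => ENNReal.ofReal (2 ^ p) * (ENNReal.ofReal ((r n ^ 2)⁻¹) * II p h + II p h))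
    ?_ ?_ ?_ ?_ ?_ ?_ ?_ ?_
  · exact fun n => meas_int p ((hmr n).add hm.neg)
  · exact fun n => ((meas_int p (hmr n)).add (meas_int p hm.neg)).const_mul _
  · intro n
    filter_upwards [ae_restrict_mem measurableSet_ball] with z hz
    exact pt_add hp0 (wt0 p hz) _ _
  · filter_upwards [ae_restrict_mem measurableSet_ball] with z hz
    have a1 := ENNReal.tendsto_ofReal (((((hlim z hz).add_const (-h z)).norm).rpow_const
      (p := p) (Or.inr hp0)).const_mul ((1 - ‖z‖) ^ (p - 1)))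
    rwa [add_neg_cancel, norm_zero, Real.zero_rpow (by linarith), mul_zero,
      ENNReal.ofReal_zero] at a1
  · filter_upwards [ae_restrict_mem measurableSet_ball] with z hz
    exact ENNReal.Tendsto.const_mul ((ENNReal.tendsto_ofReal ((((hlim z hz).norm).rpow_const
      (Or.inr hp0)).const_mul _)).add_const _) (Or.inr ENNReal.ofReal_ne_top)
  · intro n
    rw [lintegral_const_mul' _ _ ENNReal.ofReal_ne_top, lintegral_add_left (meas_int p (hmr n))]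
    gcongr
    · refine le_trans ?_ (scale (meas_int p hm) (hr0 n) (hr1 n))
      apply setLIntegral_mono' measurableSet_ball
      intro z hz
      apply ENNReal.ofReal_le_ofReal
      apply mul_le_mul (wt_le hp (hr0 n).le (hr1 n) hz) _ (by positivity)
        (wt0 p (smul_mem (hr0 n).le (hr1 n) hz))
      apply Real.rpow_le_rpow (norm_nonneg _) _ hp0
      rw [norm_mul, Complex.norm_real, Real.norm_of_nonneg (hr0 n).le]
      exact mul_le_of_le_one_left (norm_nonneg _) (hr1 n)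
    · simp [II]
  · rw [e2]
    refine ENNReal.Tendsto.const_mul (Tendsto.add_const _ ?_) (Or.inr ENNReal.ofReal_ne_top)
    exact ENNReal.Tendsto.mul_const (ENNReal.tendsto_ofReal ((hr.pow 2).inv₀ (by norm_num)))
      (Or.inr hI)
  · rw [e2]
    exact ENNReal.mul_ne_top ENNReal.ofReal_ne_top
      (ENNReal.add_ne_top.2 ⟨ENNReal.mul_ne_top ENNReal.ofReal_ne_top hI, hI⟩)

end Pool.Agent.H.MP_57350d_an
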