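import Pool.Agent.H.MP_57350d_an.A
import Pool.Agent.H.MP_dad4ef_an.A

set_option autoImplicit false
set_option maxHeartbeats 400000
open MeasureTheory Set Filter Topology Metric
open scoped ENNReal Real

namespace Pool.Agent.H.MP_57350d_an

lemma dcont {f : ℂ → ℂ} (hf : DifferentiableOn ℂ f (ball 0 1)) :
    ContinuousOn (deriv f) (ball 0 1) := (hf.deriv isOpen_ball).continuousOn

lemma diff_le {p : ℝ} (hp : 1 ≤ p) {f : ℂ → ℂ} (hf : DifferentiableOn ℂ f (ball 0 1)) {r : ℝ}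
    (h0 : 0 ≤ r) (h1 : r < 1) {z : ℂ} (hz : z ∈ ball (0 : ℂ) 1) :
    ENNReal.ofReal (‖f z - f (r * z)‖ ^ p) ≤ ENNReal.ofReal ((1 - r) ^ (p - 1)) *
      ∫⁻ s in Ioo r 1, ENNReal.ofReal (‖deriv f (s * z)‖ ^ p) := by
  have hε : 0 < 1 - r := by linarith
  have hc : ContinuousOn (fun s : ℝ => deriv f (s * z)) (Icc r 1) :=
    (dcont hf).comp (by fun_prop) fun s hs => smul_mem (h0.trans hs.1) hs.2 hz
  have hd : ∀ s ∈ uIcc r 1, HasDerivAt (fun s : ℝ => f (s * z)) (deriv f (s * z) * z) s := by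
    intro s hs
    rw [uIcc_of_le h1.le] at hs
    have a1 := (hf.differentiableAt (isOpen_ball.mem_nhds
      (smul_mem (h0.trans hs.1) hs.2 hz))).hasDerivAt
    have a2 : HasDerivAt (fun w : ℂ => w * z) z (s : ℂ) := hasDerivAt_mul_const z
    exact (a1.comp (s : ℂ) a2).comp_ofReal
  have hi : IntervalIntegrable (fun s : ℝ => deriv f (s * z) * z) volume r 1 := by
    apply ContinuousOn.intervalIntegrable
    rw [uIcc_of_le h1.le]
    exact hc.mul continuousOn_const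
  have h2 := intervalIntegral.integral_eq_sub_of_hasDerivAt hd hi
  rw [Complex.ofReal_one, one_mul] at h2
  have i1 : IntegrableOn (fun s : ℝ => ‖deriv f (s * z)‖) (Ioo r 1) :=
    (hc.norm.integrableOn_Icc).mono_set Ioo_subset_Icc_self
  have i2 : IntegrableOn (fun s : ℝ => ‖deriv f (s * z)‖ ^ p) (Ioo r 1) :=
    ((hc.norm.rpow_const fun _ _ => Or.inr (by linarith)).integrableOn_Icc).mono_set
      Ioo_subset_Icc_self
  have h3 : ‖f z - f (r * z)‖ ≤ ∫ s in Ioo r 1, ‖deriv f (s * z)‖ := by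
    rw [← h2, intervalIntegral.integral_of_le h1.le, integral_Ioc_eq_integral_Ioo]
    apply norm_integral_le_of_norm_le i1
    refine Eventually.of_forall fun s => ?_
    rw [norm_mul]
    exact mul_le_of_le_one_right (norm_nonneg _) (mem_ball_zero_iff.1 hz).le
  have h4 := (convexOn_rpow hp).map_set_average_le (μ := volume) (t := Ioo r 1)
    (f := fun s : ℝ => ‖deriv f (s * z)‖)
    (Real.continuous_rpow_const (by linarith)).continuousOn isClosed_Ici
    (by simp [h1]) (by simp) (Eventually.of_forall fun _ => norm_nonneg _) i1 i2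
  rw [setAverage_eq, setAverage_eq, Real.volume_real_Ioo_of_le h1.le, smul_eq_mul, smul_eq_mul,
    Real.mul_rpow (by positivity) (integral_nonneg fun _ => norm_nonneg _),
    Real.inv_rpow hε.le, inv_mul_le_iff₀ (by positivity), ← mul_assoc,
    ← div_eq_mul_inv, ← Real.rpow_sub_one hε.ne'] at h4
  rw [← ofReal_integral_eq_lintegral_ofReal i2 (Eventually.of_forall fun _ => by positivity),
    ← ENNReal.ofReal_mul (by positivity)]
  exact ENNReal.ofReal_le_ofReal ((Real.rpow_le_rpow (norm_nonneg _) h3 (by linarith)).trans h4)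

noncomputable def kk (f : ℂ → ℂ) (ε : ℝ) (w : ℂ) : ℂ :=
  ((min 1 (ε / (1 - ‖w‖)) : ℝ) : ℂ) * deriv f w

lemma meas_kk (f : ℂ → ℂ) (ε : ℝ) : Measurable (kk f ε) := by
  unfold kk
  have := measurable_deriv (𝕜 := ℂ) f
  fun_prop

lemma norm_kk (f : ℂ → ℂ) {ε : ℝ} (hε : 0 ≤ ε) {w : ℂ} (hw : w ∈ ball (0 : ℂ) 1) :
    ‖kk f ε w‖ = min 1 (ε / (1 - ‖w‖)) * ‖deriv f w‖ := by
  have := mem_ball_zero_iff.1 hw
  rw [kk, norm_mul, Complex.norm_real, Real.norm_of_nonneg
    (le_min zero_le_one (div_nonneg hε (by linarith)))]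

lemma termC_le {p : ℝ} (hp : 1 ≤ p) {f : ℂ → ℂ} (hf : DifferentiableOn ℂ f (ball 0 1)) {r : ℝ}
    (h0 : 1 / 2 ≤ r) (h1 : r < 1) :
    II p (fun z => (f z - f (r * z)) / ((1 - r * ‖z‖ : ℝ) : ℂ)) ≤ 4 * II p (kk f (1 - r)) := by
  have hε : 0 < 1 - r := by linarith
  have hp0 : 0 ≤ p := by linarith
  obtain ⟨Ψ, hΨ⟩ : ∃ Ψ : ℂ → ℝ≥0∞, Ψ = fun z =>
    ENNReal.ofReal ((1 - ‖z‖) ^ (p - 1) * ‖kk f (1 - r) z‖ ^ p) := ⟨_, rfl⟩
  have hΨm : Measurable Ψ := by rw [hΨ]; exact meas_int p (meas_kk f _)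
  have h2 : II p (fun z => (f z - f (r * z)) / ((1 - r * ‖z‖ : ℝ) : ℂ)) ≤
      ∫⁻ z in ball (0 : ℂ) 1, ENNReal.ofReal (1 - r)⁻¹ * ∫⁻ s in Ioo r 1, Ψ (s * z) := by
    apply setLIntegral_mono' measurableSet_ball
    intro z hz
    have hz1 := mem_ball_zero_iff.1 hz
    have hd : 1 - r ≤ 1 - r * ‖z‖ := by nlinarith
    have hd0 : 0 < 1 - r * ‖z‖ := by linarith
    have hw := wt0 p hz
    rw [norm_div, Complex.norm_real, Real.norm_of_nonneg hd0.le,
      Real.div_rpow (norm_nonneg _) hd0.le, div_eq_inv_mul, ← mul_assoc,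
      ENNReal.ofReal_mul (by positivity)]
    refine (mul_le_mul_right (diff_le hp hf (by linarith) h1 hz) _).trans ?_
    rw [← mul_assoc, ← lintegral_const_mul' _ _
      (ENNReal.mul_ne_top ENNReal.ofReal_ne_top ENNReal.ofReal_ne_top),
      ← lintegral_const_mul' _ _ ENNReal.ofReal_ne_top]
    apply setLIntegral_mono' measurableSet_Ioo
    intro s hs
    have hs0 : 0 ≤ s := by linarith [hs.1]
    have hsz := smul_mem hs0 hs.2.le hz
    have hsn : ‖(s : ℂ) * z‖ = s * ‖z‖ := by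
      rw [norm_mul, Complex.norm_real, Real.norm_of_nonneg hs0]
    have hsz1 := mem_ball_zero_iff.1 hsz
    have hw2 := wt0 p hsz
    rw [hΨ]
    beta_reduce
    rw [← ENNReal.ofReal_mul (by positivity), ← ENNReal.ofReal_mul (by positivity),
      ← ENNReal.ofReal_mul (by positivity), norm_kk f hε.le hsz]
    apply ENNReal.ofReal_le_ofReal
    have a1 : (1 - r) / (1 - r * ‖z‖) ≤ min 1 ((1 - r) / (1 - ‖(s : ℂ) * z‖)) := by
      refine le_min ((div_le_one hd0).2 hd) ?_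
      apply div_le_div_of_nonneg_left hε.le (by linarith)
      rw [hsn]; nlinarith [hs.1, norm_nonneg z]
    have a2 := Real.rpow_le_rpow (by positivity)
      (mul_le_mul_of_nonneg_right a1 (norm_nonneg (deriv f (s * z)))) hp0
    refine le_trans (le_of_eq ?_) (mul_le_mul_of_nonneg_left
      (mul_le_mul (wt_le hp hs0 hs.2.le hz) a2 (by positivity) hw2) (by positivity))
    rw [Real.mul_rpow (by positivity) (norm_nonneg _), Real.div_rpow hε.le hd0.le,
      Real.rpow_sub_one hε.ne' p]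
    field_simp
  refine h2.trans ?_
  have hm2 : Measurable (Function.uncurry fun (z : ℂ) (s : ℝ) => Ψ (s * z)) :=
    hΨm.comp (by fun_prop)
  rw [lintegral_const_mul' _ _ ENNReal.ofReal_ne_top, lintegral_lintegral_swap hm2.aemeasurable]
  have h3 : ∫⁻ s in Ioo r 1, ∫⁻ z in ball (0 : ℂ) 1, Ψ (s * z) ≤
      ∫⁻ _ in Ioo r 1, 4 * II p (kk f (1 - r)) := by
    apply setLIntegral_mono' measurableSet_Ioo
    intro s hs
    refine (scale hΨm (by linarith [hs.1]) hs.2.le).trans ?_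
    rw [hΨ]
    apply mul_le_mul_left
    rw [← ENNReal.ofReal_ofNat]
    apply ENNReal.ofReal_le_ofReal
    rw [inv_le_comm₀ (by nlinarith [hs.1]) (by norm_num)]
    nlinarith [hs.1]
  refine (mul_le_mul_right h3 _).trans (le_of_eq ?_)
  rw [setLIntegral_const, Real.volume_Ioo, mul_comm (4 * _), ← mul_assoc,
    ← ENNReal.ofReal_mul (by positivity), inv_mul_cancel₀ hε.ne', ENNReal.ofReal_one, one_mul]

lemma kk_le {p : ℝ} (hp : 0 ≤ p) (f : ℂ → ℂ) {ε : ℝ} (hε : 0 ≤ ε) :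
    II p (kk f ε) ≤ II p (deriv f) := by
  have := II_mono hp (a := kk f ε) (b := deriv f) zero_le_one fun z hz => by
    rw [norm_kk f hε hz]
    exact mul_le_mul_of_nonneg_right (min_le_left _ _) (norm_nonneg _)
  simpa using this

lemma dct {p : ℝ} (hp : 0 < p) {a : ℕ → ℂ → ℂ} {b : ℂ → ℂ} (ha : ∀ n, Measurable (a n))
    {C : ℝ} (hC : 0 ≤ C) (hb : II p b ≠ ⊤)
    (h : ∀ n, ∀ z ∈ ball (0 : ℂ) 1, ‖a n z‖ ≤ C * ‖b z‖)
    (hl : ∀ z ∈ ball (0 : ℂ) 1, Tendsto (fun n => a n z) atTop (𝓝 0)) :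
    Tendsto (fun n => II p (a n)) atTop (𝓝 0) := by
  have := tendsto_lintegral_of_dominated_convergence (μ := volume.restrict (ball (0 : ℂ) 1))
    (F := fun n z => ENNReal.ofReal ((1 - ‖z‖) ^ (p - 1) * ‖a n z‖ ^ p)) (f := fun _ => 0)
    (fun z => ENNReal.ofReal (C ^ p) * ENNReal.ofReal ((1 - ‖z‖) ^ (p - 1) * ‖b z‖ ^ p))
    (fun n => meas_int p (ha n)) ?_ ?_ ?_
  · rwa [lintegral_zero] at this
  · intro n
    filter_upwards [ae_restrict_mem measurableSet_ball] with z hz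
    rw [← ENNReal.ofReal_mul (by positivity), mul_left_comm, ← Real.mul_rpow hC (norm_nonneg _)]
    exact ENNReal.ofReal_le_ofReal (mul_le_mul_of_nonneg_left
      (Real.rpow_le_rpow (norm_nonneg _) (h n z hz) hp.le) (wt0 p hz))
  · rw [lintegral_const_mul' _ _ ENNReal.ofReal_ne_top]
    exact ENNReal.mul_ne_top ENNReal.ofReal_ne_top hb
  · filter_upwards [ae_restrict_mem measurableSet_ball] with z hz
    have a1 := ENNReal.tendsto_ofReal ((((hl z hz).norm).rpow_const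
      (p := p) (Or.inr hp.le)).const_mul ((1 - ‖z‖) ^ (p - 1)))
    rwa [norm_zero, Real.zero_rpow hp.ne', mul_zero, ENNReal.ofReal_zero] at a1

lemma termC {p : ℝ} (hp : 1 ≤ p) {f : ℂ → ℂ} (hf : DifferentiableOn ℂ f (ball 0 1))
    (hI : II p (deriv f) ≠ ⊤) {r : ℕ → ℝ} (hr0 : ∀ n, 1 / 2 ≤ r n) (hr1 : ∀ n, r n < 1)
    (hr : Tendsto r atTop (𝓝 1)) :
    Tendsto (fun n => II p (fun z => (f z - f (r n * z)) / ((1 - r n * ‖z‖ : ℝ) : ℂ))) atTop
      (𝓝 0) := by
  refine tend_cmul (c := 4) (by simp) ?_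
    (Eventually.of_forall fun n => termC_le hp hf (hr0 n) (hr1 n))
  apply dct (by linarith) (fun n => meas_kk f _) zero_le_one hI
  · intro n z hz
    rw [norm_kk f (by linarith [hr1 n]) hz]
    exact mul_le_mul_of_nonneg_right (min_le_left _ _) (norm_nonneg _)
  · intro z _
    have a1 : Continuous fun ε : ℝ => kk f ε z := by unfold kk; fun_prop
    have a2 := (a1.tendsto (1 - 1)).comp (hr.const_sub 1)
    have a3 : kk f (1 - 1) z = 0 := by simp [kk]
    rw [a3] at a2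
    exact a2

lemma II_one {p : ℝ} (hp : 1 ≤ p) : II p (fun _ => 1) ≠ ⊤ := by
  refine ne_top_of_le_ne_top (measure_ball_lt_top (μ := volume) (x := (0 : ℂ)) (r := 1)).ne ?_
  rw [← setLIntegral_one]
  apply setLIntegral_mono' measurableSet_ball
  intro z hz
  have := mem_ball_zero_iff.1 hz
  rw [ENNReal.ofReal_le_one, norm_one, Real.one_rpow, mul_one]
  exact Real.rpow_le_one (by linarith) (by linarith [norm_nonneg z]) (by linarith)

lemma II_self {p : ℝ} (hp : 1 ≤ p) {f : ℂ → ℂ} (hm : Measurable f)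
    (hf : DifferentiableOn ℂ f (ball 0 1)) (hI : II p (deriv f) ≠ ⊤) : II p f ≠ ⊤ := by
  have hp0 : 0 ≤ p := by linarith
  have h1 := (termC_le hp hf le_rfl (by norm_num)).trans
    (mul_le_mul_right (kk_le hp0 f (by norm_num)) 4)
  obtain ⟨M, hM⟩ := (isCompact_closedBall (0 : ℂ) (1 / 2)).exists_bound_of_continuousOn
    (hf.continuousOn.mono (closedBall_subset_ball (by norm_num)))
  have e : f = fun z => f ((1 / 2 : ℝ) * z) + (f z - f ((1 / 2 : ℝ) * z)) := by ext z; ring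
  rw [e]
  apply II_add_lt hp0 (hm.comp (by fun_prop))
  · refine ne_top_of_le_ne_top (ENNReal.mul_ne_top ENNReal.ofReal_ne_top (II_one hp))
      (II_mono hp0 (le_max_left 0 M) fun z hz => ?_)
    rw [norm_one, mul_one]
    refine (hM _ ?_).trans (le_max_right _ _)
    rw [mem_closedBall_zero_iff, norm_mul, Complex.norm_real, Real.norm_of_nonneg (by norm_num)]
    linarith [mem_ball_zero_iff.1 hz]
  · refine ne_top_of_le_ne_top (ENNReal.mul_ne_top ENNReal.ofReal_ne_top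
      (ne_top_of_le_ne_top (ENNReal.mul_ne_top (by simp) hI) h1))
      (II_mono hp0 zero_le_one fun z hz => ?_)
    have := mem_ball_zero_iff.1 hz
    have h0 : 0 < 1 - 1 / 2 * ‖z‖ := by linarith
    rw [one_mul, norm_div, Complex.norm_real, Real.norm_of_nonneg h0.le, le_div_iff₀ h0]
    exact mul_le_of_le_one_right (norm_nonneg _) (by linarith [norm_nonneg z])

lemma deriv_bd {h : ℂ → ℂ} {c : ℂ} {ρ M : ℝ} (hρ : 0 < ρ) (hd : DifferentiableOn ℂ h (ball c ρ))
    (hM : ∀ z ∈ ball c ρ, ‖h z‖ ≤ M) : ‖deriv h c‖ ≤ 2 * M / ρ := by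
  apply Complex.norm_deriv_le_div_of_mapsTo_ball hd _ hρ
  intro w hw
  rw [mem_closedBall, dist_eq_norm]
  linarith [norm_sub_le (h w) (h c), hM w hw, hM c (mem_ball_self hρ)]

lemma deriv_bd1 {h : ℂ → ℂ} {M R : ℝ} (hd : DifferentiableOn ℂ h (ball 0 R))
    (hM : ∀ z ∈ ball (0 : ℂ) R, ‖h z‖ ≤ M) {z : ℂ} (hz : ‖z‖ < R) :
    ‖deriv h z‖ ≤ 2 * M / (R - ‖z‖) := by
  have hs : ball z (R - ‖z‖) ⊆ ball 0 R := by
    apply ball_subset_ball'
    simp
  exact deriv_bd (by linarith) (hd.mono hs) fun w hw => hM w (hs hw)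

end Pool.Agent.H.MP_57350d_an
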