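import Pool.Agent.H.MP_57350d_an.B

set_option autoImplicit false
set_option maxHeartbeats 400000
open MeasureTheory Set Filter Topology Metric
open scoped ENNReal Real

namespace Pool.Agent.H.MP_57350d_an

open Pool.Agent.H.MP_dad4ef_an

lemma hda {f : ℂ → ℂ} (hf : DifferentiableOn ℂ f (ball 0 1)) {z : ℂ} (hz : z ∈ ball (0 : ℂ) 1) :
    HasDerivAt f (deriv f z) z := (hf.differentiableAt (isOpen_ball.mem_nhds hz)).hasDerivAt

lemma dil_tend {p : ℝ} (hp : 1 ≤ p) {f φ : ℂ → ℂ} (hfm : Measurable f) (hφm : Measurable φ)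
    (hf : DifferentiableOn ℂ f (ball 0 1)) (hφ : DifferentiableOn ℂ φ (ball 0 1)) {M : ℝ}
    (hM : ∀ z ∈ ball (0 : ℂ) 1, ‖φ z‖ ≤ M) (hI : II p (deriv f) ≠ ⊤)
    (hI2 : II p (deriv fun z => φ z * f z) ≠ ⊤) {r : ℕ → ℝ} (hr0 : ∀ n, 1 / 2 ≤ r n)
    (hr1 : ∀ n, r n < 1) (hr : Tendsto r atTop (𝓝 1)) :
    Tendsto (fun n => II p (fun z => deriv (fun w => φ (r n * w) * f w) z -
      deriv (fun w => φ w * f w) z)) atTop (𝓝 0) := by
  have hp0 : 0 ≤ p := by linarith
  have hM0 : 0 ≤ M := (norm_nonneg _).trans (hM 0 (mem_ball_self one_pos))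
  have hr0' : ∀ n, 0 < r n := fun n => by linarith [hr0 n]
  have mf := measurable_deriv (𝕜 := ℂ) f
  have mφ := measurable_deriv (𝕜 := ℂ) φ
  have hd1 : ∀ z ∈ ball (0 : ℂ) 1, deriv (fun w => φ w * f w) z =
      deriv φ z * f z + φ z * deriv f z := fun z hz => ((hda hφ hz).mul (hda hf hz)).deriv
  have hI3 : II p (fun z => deriv φ z * f z) ≠ ⊤ := by
    rw [II_congr p (b := fun z => deriv (fun w => φ w * f w) z + -(φ z * deriv f z))
      (fun z hz => by simp only [hd1 z hz]; ring)]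
    apply II_add_lt hp0 (measurable_deriv _) hI2
    refine ne_top_of_le_ne_top (ENNReal.mul_ne_top ENNReal.ofReal_ne_top hI)
      (II_mono hp0 hM0 fun z hz => ?_)
    rw [norm_neg, norm_mul]
    exact mul_le_mul_of_nonneg_right (hM z hz) (norm_nonneg _)
  have mA : ∀ n, Measurable fun z : ℂ => (φ (r n * z) - φ z) * deriv f z := fun n =>
    ((hφm.comp (by fun_prop)).sub hφm).mul mf
  have mB : ∀ n, Measurable fun z : ℂ => (r n : ℂ) * (deriv φ (r n * z) * f (r n * z)) +
      -(deriv φ z * f z) := fun n =>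
    (((mφ.mul hfm).comp (by fun_prop)).const_mul _).add (mφ.mul hfm).neg
  have tA : Tendsto (fun n => II p (fun z => (φ (r n * z) - φ z) * deriv f z)) atTop (𝓝 0) := by
    apply dct (by linarith) mA (C := 2 * M) (by linarith) hI
    · intro n z hz
      rw [norm_mul]
      apply mul_le_mul_of_nonneg_right _ (norm_nonneg _)
      linarith [norm_sub_le (φ (r n * z)) (φ z), hM z hz,
        hM _ (smul_mem (hr0' n).le (hr1 n).le hz)]
    · intro z hz
      have a1 : Tendsto (fun n => (r n : ℂ)) atTop (𝓝 1) :=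
        (Complex.continuous_ofReal.tendsto 1).comp hr
      have a2 : Tendsto (fun n => (r n : ℂ) * z) atTop (𝓝 z) := by simpa using a1.mul_const z
      have a3 := (((hda hφ hz).continuousAt.tendsto.comp a2).sub_const (φ z)).mul_const (deriv f z)
      rw [sub_self, zero_mul] at a3
      exact a3
  have tB := termB hp (h := fun z => deriv φ z * f z) (mφ.mul hfm)
    ((dcont hφ).mul hf.continuousOn) hI3 hr0' (fun n => (hr1 n).le) hr
  have tC : Tendsto (fun n => II p (fun z => r n * deriv φ (r n * z) * (f z - f (r n * z))))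
      atTop (𝓝 0) := by
    refine tend_cmul (c := ENNReal.ofReal ((2 * M) ^ p)) ENNReal.ofReal_ne_top
      (termC hp hf hI hr0 hr1 hr) (Eventually.of_forall fun n => II_mono hp0 (by linarith)
        fun z hz => ?_)
    have hn : ‖(r n : ℂ) * z‖ = r n * ‖z‖ := by
      rw [norm_mul, Complex.norm_real, Real.norm_of_nonneg (hr0' n).le]
    have h1 := mem_ball_zero_iff.1 (smul_mem (hr0' n).le (hr1 n).le hz)
    have h2 := deriv_bd1 hφ hM h1
    rw [hn] at h1
    rw [norm_mul, norm_mul, norm_div, Complex.norm_real, Complex.norm_real,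
      Real.norm_of_nonneg (hr0' n).le, Real.norm_of_nonneg (by linarith), ← mul_div_assoc,
      mul_div_right_comm, ← hn]
    apply mul_le_mul_of_nonneg_right _ (norm_nonneg _)
    exact (mul_le_of_le_one_left (norm_nonneg _) (hr1 n).le).trans h2
  have t1 := II_add_tend hp0 mA tA (II_add_tend hp0 mB tB tC)
  refine t1.congr fun n => II_congr p fun z hz => ?_
  have a1 : HasDerivAt (fun w : ℂ => (r n : ℂ) * w) (r n * 1) z := (hasDerivAt_id z).const_mul _
  have a2 : HasDerivAt (fun w => φ (r n * w)) (deriv φ (r n * z) * (r n * 1)) z :=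
    (hda hφ (smul_mem (hr0' n).le (hr1 n).le hz)).comp z a1
  have a3 : deriv (fun w => φ (r n * w) * f w) z = _ := (a2.mul (hda hf hz)).deriv
  simp only [a3, hd1 z hz]
  ring

def Appr (p : ℝ) (f g : ℂ → ℂ) : Prop :=
  ∃ q : ℕ → Polynomial ℂ, Tendsto (fun n => (q n).eval 0 * f 0) atTop (𝓝 (g 0)) ∧
    Tendsto (fun n => II p (fun z => deriv (fun w => (q n).eval w * f w) z - deriv g z)) atTop (𝓝 0)

lemma Appr.lim {p : ℝ} (hp : 0 ≤ p) {f g : ℂ → ℂ} {G : ℕ → ℂ → ℂ} (h : ∀ n, Appr p f (G n))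
    (h0 : Tendsto (fun n => G n 0) atTop (𝓝 (g 0)))
    (h1 : Tendsto (fun n => II p (fun z => deriv (G n) z - deriv g z)) atTop (𝓝 0)) :
    Appr p f g := by
  have h2 : ∀ n : ℕ, ∃ q : Polynomial ℂ, dist (q.eval 0 * f 0) (G n 0) < 1 / (n + 1 : ℝ) ∧
      II p (fun z => deriv (fun w => q.eval w * f w) z - deriv (G n) z) ≤
        1 * ENNReal.ofReal (1 / (n + 1 : ℝ)) := by
    intro n
    obtain ⟨q, a, b⟩ := h n
    have hpos : 0 < 1 / (n + 1 : ℝ) := by positivity
    obtain ⟨m, hm⟩ := ((Metric.tendsto_nhds.1 a _ hpos).and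
      (ENNReal.tendsto_nhds_zero.1 b _ (ENNReal.ofReal_pos.2 hpos))).exists
    exact ⟨q m, hm.1, by rw [one_mul]; exact hm.2⟩
  choose q hq1 hq2 using h2
  have t0 : Tendsto (fun m : ℕ => 1 / (m + 1 : ℝ)) atTop (𝓝 0) :=
    tendsto_one_div_add_atTop_nhds_zero_nat
  refine ⟨q, h0.congr_dist (squeeze_zero (fun _ => dist_nonneg)
    (fun n => by rw [dist_comm]; exact (hq1 n).le) t0), ?_⟩
  have t1 := ENNReal.tendsto_ofReal t0
  rw [ENNReal.ofReal_zero] at t1
  have mm : ∀ n, Measurable fun z => deriv (fun w => (q n).eval w * f w) z - deriv (G n) z :=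
    fun n => (measurable_deriv _).sub (measurable_deriv _)
  have t2 := II_add_tend hp mm
    (tend_cmul ENNReal.one_ne_top t1 (Eventually.of_forall hq2)) h1
  refine t2.congr fun n => II_congr p fun z _ => ?_
  beta_reduce
  ring

lemma appr_dil {p : ℝ} (hp : 1 ≤ p) {f φ : ℂ → ℂ} (hfm : Measurable f)
    (hf : DifferentiableOn ℂ f (ball 0 1)) (hφ : DifferentiableOn ℂ φ (ball 0 1))
    (hI : II p (deriv f) ≠ ⊤) {r : ℝ} (h0 : 0 < r) (h1 : r < 1) :
    Appr p f (fun w => φ (r * w) * f w) := by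
  have hp0 : 0 ≤ p := by linarith
  obtain ⟨ρ, hρ⟩ : ∃ ρ, ρ = (1 + r) / 2 := ⟨_, rfl⟩
  have hρ0 : 0 < ρ := by linarith
  have hρ1 : ρ < 1 := by linarith
  obtain ⟨R, hR⟩ : ∃ R, R = ρ / r := ⟨_, rfl⟩
  have hR1 : 1 < R := by rw [hR, one_lt_div h0]; linarith
  have hrR : ∀ z ∈ ball (0 : ℂ) R, ‖(r : ℂ) * z‖ < ρ := by
    intro z hz
    rw [mem_ball_zero_iff, hR, lt_div_iff₀ h0] at hz
    rw [norm_mul, Complex.norm_real, Real.norm_of_nonneg h0.le]; linarith
  obtain ⟨q, hq⟩ : ∃ q : ℕ → Polynomial ℂ, ∀ N z, (q N).eval z =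
      ∑ n ∈ Finset.range N, co φ n * (r * z) ^ n :=
    ⟨fun N => ∑ n ∈ Finset.range N, Polynomial.C (co φ n * r ^ n) * Polynomial.X ^ n,
      fun N z => by simp [Polynomial.eval_finsetSum, mul_pow, mul_assoc]⟩
  have hs : Summable fun n => ‖co φ n * (ρ : ℂ) ^ n‖ :=
    (co_sum hφ (w := ρ) (by rwa [Complex.norm_real, Real.norm_of_nonneg hρ0.le])).summable.norm
  obtain ⟨η, hη⟩ : ∃ η : ℕ → ℝ, η = fun N => ∑' n, ‖co φ (n + N) * (ρ : ℂ) ^ (n + N)‖ := ⟨_, rfl⟩
  have hη0 : Tendsto η atTop (𝓝 0) := by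
    rw [hη]; exact tendsto_sum_nat_add fun n => ‖co φ n * (ρ : ℂ) ^ n‖
  have hη1 : ∀ N, 0 ≤ η N := fun N => by rw [hη]; exact tsum_nonneg fun _ => norm_nonneg _
  have hb : ∀ N, ∀ z ∈ ball (0 : ℂ) R, ‖(q N).eval z - φ (r * z)‖ ≤ η N := by
    intro N z hz
    have a1 := co_sum hφ ((hrR z hz).trans hρ1)
    rw [hq, ← a1.tsum_eq, ← a1.summable.sum_add_tsum_nat_add N, sub_add_cancel_left, norm_neg, hη]
    apply tsum_of_norm_bounded ((summable_nat_add_iff N).2 hs).hasSum
    intro n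
    rw [norm_mul, norm_mul, norm_pow, norm_pow, Complex.norm_real ρ, Real.norm_of_nonneg hρ0.le]
    gcongr
    exact (hrR z hz).le
  have hφr : DifferentiableOn ℂ (fun w => φ (r * w)) (ball 0 R) :=
    hφ.comp (by fun_prop) fun z hz => mem_ball_zero_iff.2 ((hrR z hz).trans hρ1)
  have hD : ∀ N, DifferentiableOn ℂ (fun w => (q N).eval w - φ (r * w)) (ball 0 R) := fun N =>
    (q N).differentiableOn.sub hφr
  have hsub : ball (0 : ℂ) 1 ⊆ ball 0 R := ball_subset_ball hR1.le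
  have tt : ∀ {c : ℝ} {A : ℝ≥0∞}, A ≠ ⊤ →
      Tendsto (fun N => ENNReal.ofReal ((c * η N) ^ p) * A) atTop (𝓝 0) := by
    intro c A hA
    have a1 := ENNReal.tendsto_ofReal ((hη0.const_mul c).rpow_const (p := p) (Or.inr hp0))
    rw [mul_zero, Real.zero_rpow (by linarith), ENNReal.ofReal_zero] at a1
    simpa using ENNReal.Tendsto.mul_const a1 (Or.inr hA)
  refine ⟨q, ?_, ?_⟩
  · refine Tendsto.mul_const _ ?_
    rw [tendsto_iff_norm_sub_tendsto_zero]
    exact squeeze_zero (fun _ => norm_nonneg _) (fun N => hb N 0 (mem_ball_self (by linarith))) hη0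
  · have t1 : Tendsto (fun N => II p (fun z =>
        deriv (fun w => (q N).eval w - φ (r * w)) z * f z)) atTop (𝓝 0) := by
      refine tend_cmul ENNReal.one_ne_top (tt (c := 2 / (R - 1)) (II_self hp hfm hf hI))
        (Eventually.of_forall fun N => ?_)
      rw [one_mul]
      have := hη1 N
      have : 0 < R - 1 := by linarith
      refine II_mono hp0 (by positivity) fun z hz => ?_
      rw [norm_mul]
      apply mul_le_mul_of_nonneg_right _ (norm_nonneg _)
      have hz1 := mem_ball_zero_iff.1 hz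
      refine (deriv_bd1 (hD N) (hb N) (hz1.trans hR1)).trans ?_
      rw [div_mul_eq_mul_div]
      exact div_le_div_of_nonneg_left (by positivity) this (by linarith)
    have t2 : Tendsto (fun N => II p (fun z =>
        ((q N).eval z - φ (r * z)) * deriv f z)) atTop (𝓝 0) := by
      refine tend_cmul ENNReal.one_ne_top (tt (c := 1) hI) (Eventually.of_forall fun N => ?_)
      rw [one_mul, one_mul]
      refine II_mono hp0 (hη1 N) fun z hz => ?_
      rw [norm_mul]
      exact mul_le_mul_of_nonneg_right (hb N z (hsub hz)) (norm_nonneg _)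
    have mm : ∀ N, Measurable fun z => deriv (fun w => (q N).eval w - φ (r * w)) z * f z :=
      fun N => (measurable_deriv _).mul hfm
    have t3 := II_add_tend hp0 mm t1 t2
    refine t3.congr fun N => II_congr p fun z hz => ?_
    have a1 := hda ((q N).differentiableOn (s := ball 0 1)) hz
    have a2 := hda (hφr.mono hsub) hz
    have a3 : deriv (fun w => (q N).eval w - φ (r * w)) z = _ := (a1.sub a2).deriv
    have a4 : deriv (fun w => (q N).eval w * f w) z = _ := (a1.mul (hda hf hz)).deriv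
    have a5 : deriv (fun w => φ (r * w) * f w) z = _ := (a2.mul (hda hf hz)).deriv
    simp only [a3, a4, a5]
    ring

theorem appr_mul {p : ℝ} (hp : 1 ≤ p) {f φ : ℂ → ℂ} (hfm : Measurable f) (hφm : Measurable φ)
    (hf : DifferentiableOn ℂ f (ball 0 1)) (hφ : DifferentiableOn ℂ φ (ball 0 1)) {M : ℝ}
    (hM : ∀ z ∈ ball (0 : ℂ) 1, ‖φ z‖ ≤ M) (hI : II p (deriv f) ≠ ⊤)
    (hI2 : II p (deriv fun z => φ z * f z) ≠ ⊤) : Appr p f (fun z => φ z * f z) := by
  have t0 : Tendsto (fun m : ℕ => 1 - 1 / 2 * (1 / (m + 1 : ℝ))) atTop (𝓝 1) := by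
    simpa using (tendsto_one_div_add_atTop_nhds_zero_nat.const_mul (1 / 2 : ℝ)).const_sub 1
  have a1 : ∀ m : ℕ, 0 < 1 / (m + 1 : ℝ) := fun m => by positivity
  have a2 : ∀ m : ℕ, 1 / (m + 1 : ℝ) ≤ 1 := fun m => by
    rw [div_le_one (by positivity)]; linarith [Nat.cast_nonneg (α := ℝ) m]
  apply Appr.lim (by linarith) (G := fun m w => φ ((1 - 1 / 2 * (1 / (m + 1 : ℝ)) : ℝ) * w) * f w)
  · exact fun m => appr_dil hp hfm hf hφ hI (by linarith [a2 m]) (by linarith [a1 m])
  · simp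
  · exact dil_tend hp hfm hφm hf hφ hM hI hI2 (fun m => by linarith [a2 m])
      (fun m => by linarith [a1 m]) t0

end Pool.Agent.H.MP_57350d_an
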