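import Pool.Agent.H.MP_57350d_an.C

set_option autoImplicit false
set_option maxHeartbeats 400000
open MeasureTheory Set Filter Topology Metric
open scoped ENNReal Real

namespace Pool.Agent.H.MP_57350d_an

open Pool.Agent.H.MP_dad4ef_an

lemma ang (b : ℕ → ℂ) (N : ℕ) (r : ℝ) :
    ∫⁻ θ in Ioo (-π) π, ENNReal.ofReal (‖∑ k ∈ Finset.range N,
      b k * Complex.polarCoord.symm (r, θ) ^ k‖ ^ 2) =
    ENNReal.ofReal (2 * π * ∑ k ∈ Finset.range N, ‖b k‖ ^ 2 * r ^ (2 * k)) := by
  have h1 := parseval (fun k => b k * (-r) ^ k) N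
  have h2 := intervalIntegral.integral_comp_sub_right (a := 0) (b := 2 * π)
    (fun θ : ℝ => ‖∑ k ∈ Finset.range N, b k * Complex.polarCoord.symm (r, θ) ^ k‖ ^ 2) π
  have hc : Continuous fun θ : ℝ =>
      ‖∑ k ∈ Finset.range N, b k * Complex.polarCoord.symm (r, θ) ^ k‖ ^ 2 := by
    simp only [Complex.polarCoord_symm_apply]; fun_prop
  rw [← ofReal_integral_eq_lintegral_ofReal (hc.integrableOn_Icc.mono_set Ioo_subset_Icc_self)
    (Eventually.of_forall fun _ => by positivity), ← integral_Ioc_eq_integral_Ioo,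
    ← intervalIntegral.integral_of_le (by linarith [Real.pi_pos])]
  congr 1
  rw [zero_sub, show 2 * π - π = π by ring] at h2
  rw [← h2]
  refine Eq.trans ?_ (h1.trans ?_)
  · congr 1
    ext θ
    congr 2
    refine Finset.sum_congr rfl fun k _ => ?_
    rw [mul_assoc, ← mul_pow, Complex.polarCoord_symm_apply, Complex.exp_mul_I]
    simp only [Real.cos_sub_pi, Real.sin_sub_pi]
    push_cast
    congr 2
    ring
  · congr 1
    refine Finset.sum_congr rfl fun k _ => ?_
    rw [Complex.normSq_eq_norm_sq, norm_mul, norm_pow, norm_neg, Complex.norm_real, mul_pow,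
      ← pow_mul, mul_comm k 2, pow_mul, pow_mul, Real.norm_eq_abs, sq_abs]

lemma poly_int (b : ℕ → ℂ) (N : ℕ) :
    ∫⁻ z in ball (0 : ℂ) 1, ENNReal.ofReal ((1 - ‖z‖) * ‖∑ k ∈ Finset.range N, b k * z ^ k‖ ^ 2) ≤
      ENNReal.ofReal (2 * π * ∑ k ∈ Finset.range N, ‖b k‖ ^ 2 / (k + 1) ^ 2) := by
  refine (setLIntegral_le_lintegral _ _).trans ?_
  rw [← Complex.lintegral_comp_polarCoord_symm, polarCoord_target, Measure.volume_eq_prod,
    ← Measure.prod_restrict, lintegral_prod _ (by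
      simp only [Complex.polarCoord_symm_apply, smul_eq_mul]; fun_prop)]
  obtain ⟨G, hG⟩ : ∃ G : ℝ → ℝ, G = fun r => (r * (1 - r)) *
    (2 * π * ∑ k ∈ Finset.range N, ‖b k‖ ^ 2 * r ^ (2 * k)) := ⟨_, rfl⟩
  have hS : ∀ r : ℝ, 0 ≤ 2 * π * ∑ k ∈ Finset.range N, ‖b k‖ ^ 2 * r ^ (2 * k) := fun r =>
    mul_nonneg (by positivity) (Finset.sum_nonneg fun k _ => by rw [pow_mul]; positivity)
  have h1 : ∀ r ∈ Ioi (0 : ℝ), ∫⁻ θ in Ioo (-π) π, ENNReal.ofReal (r, θ).1 •
      ENNReal.ofReal ((1 - ‖Complex.polarCoord.symm (r, θ)‖) * ‖∑ k ∈ Finset.range N,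
        b k * Complex.polarCoord.symm (r, θ) ^ k‖ ^ 2) =
      (Ioc (0 : ℝ) 1).indicator (fun r => ENNReal.ofReal (G r)) r := by
    intro r hr
    have hr0 : 0 < r := hr
    simp only [Complex.norm_polarCoord_symm, abs_of_pos hr0, smul_eq_mul]
    by_cases h : r ≤ 1
    · rw [indicator_of_mem (mem_Ioc.2 ⟨hr0, h⟩), hG]
      beta_reduce
      rw [ENNReal.ofReal_mul (by nlinarith), ← ang,
        ← lintegral_const_mul' _ _ ENNReal.ofReal_ne_top]
      congr 1
      ext θ
      rw [ENNReal.ofReal_mul (by linarith), ENNReal.ofReal_mul hr0.le, mul_assoc]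
    · rw [indicator_of_notMem (fun h' => h h'.2)]
      apply lintegral_eq_zero_of_ae_eq_zero
      refine Eventually.of_forall fun θ => ?_
      beta_reduce
      rw [ENNReal.ofReal_of_nonpos (mul_nonpos_of_nonpos_of_nonneg (by linarith) (by positivity)),
        mul_zero, Pi.zero_apply]
  rw [setLIntegral_congr_fun measurableSet_Ioi h1]
  refine (setLIntegral_le_lintegral _ _).trans ?_
  have hc : Continuous G := by rw [hG]; fun_prop
  rw [lintegral_indicator measurableSet_Ioc, ← ofReal_integral_eq_lintegral_ofReal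
    hc.integrableOn_Ioc, ← intervalIntegral.integral_of_le zero_le_one]
  · apply ENNReal.ofReal_le_ofReal
    have e : G = fun r => 2 * π * ∑ k ∈ Finset.range N,
        ‖b k‖ ^ 2 * (r ^ (2 * k + 1) - r ^ (2 * k + 2)) := by
      ext r
      rw [hG]
      beta_reduce
      rw [mul_left_comm, Finset.mul_sum]
      congr 1
      exact Finset.sum_congr rfl fun k _ => by ring
    rw [e, intervalIntegral.integral_const_mul,
      intervalIntegral.integral_finsetSum fun k _ => Continuous.intervalIntegrable (by fun_prop) _ _]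
    apply mul_le_mul_of_nonneg_left _ (by positivity)
    refine Finset.sum_le_sum fun k _ => ?_
    rw [intervalIntegral.integral_const_mul, intervalIntegral.integral_sub
      (Continuous.intervalIntegrable (by fun_prop) _ _)
      (Continuous.intervalIntegrable (by fun_prop) _ _), integral_pow, integral_pow,
      div_eq_mul_one_div (‖b k‖ ^ 2)]
    apply mul_le_mul_of_nonneg_left _ (by positivity)
    simp only [one_pow, ne_eq, Nat.add_eq_zero_iff, one_ne_zero, and_false, not_false_eq_true,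
      zero_pow, sub_zero]
    push_cast
    rw [div_sub_div _ _ (by positivity) (by positivity), div_le_div_iff₀ (by positivity)
      (by positivity)]
    have : (0 : ℝ) ≤ k := Nat.cast_nonneg k
    nlinarith
  · filter_upwards [ae_restrict_mem measurableSet_Ioc] with r hr
    rw [hG]
    exact mul_nonneg (mul_nonneg hr.1.le (by linarith [hr.2])) (hS r)

lemma sum_le {g : ℂ → ℂ} (hg : DifferentiableOn ℂ g (ball 0 1))
    (h : ∀ z ∈ ball (0 : ℂ) 1, ‖g z‖ ≤ 1) (N : ℕ) :
    ∑ n ∈ Finset.range N, ‖co g n‖ ^ 2 ≤ 1 := by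
  have h1 : Tendsto (fun r : ℝ => ∑ n ∈ Finset.range N, ‖co g n‖ ^ 2 * r ^ (2 * n)) (𝓝[<] 1)
      (𝓝 (∑ n ∈ Finset.range N, ‖co g n‖ ^ 2 * 1 ^ (2 * n))) :=
    (Continuous.tendsto (by fun_prop) 1).mono_left nhdsWithin_le_nhds
  simp only [one_pow, mul_one] at h1
  refine le_of_tendsto h1 ?_
  filter_upwards [Ioo_mem_nhdsLT (show (0 : ℝ) < 1 by norm_num)] with r hr
  refine (bes hr.1 hr.2 hg N).trans ((mul_le_mul_of_nonneg_left ((Real.le_norm_self _).trans
    (intervalIntegral.norm_integral_le_of_norm_le_const (C := 1) fun t _ => ?_))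
      (by positivity)).trans ?_)
  · rw [norm_pow, norm_norm]
    exact pow_le_one₀ (norm_nonneg _) (h _ (by simpa [abs_of_pos hr.1] using hr.2))
  · rw [sub_zero, abs_of_pos (by positivity), one_mul, inv_mul_cancel₀ (by positivity)]

lemma bdd_I {g : ℂ → ℂ} (hg : DifferentiableOn ℂ g (ball 0 1))
    (h : ∀ z ∈ ball (0 : ℂ) 1, ‖g z‖ ≤ 1) :
    ∫⁻ z in ball (0 : ℂ) 1, ENNReal.ofReal ((1 - ‖z‖) * ‖deriv g z‖ ^ 2) ≤
      ENNReal.ofReal (2 * π * (1 - ‖g 0‖ ^ 2)) := by
  have h4 := lintegral_liminf_le (μ := volume.restrict (ball (0 : ℂ) 1)) (u := atTop)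
    (f := fun N z => ENNReal.ofReal ((1 - ‖z‖) *
      ‖∑ k ∈ Finset.range N, co (deriv g) k * z ^ k‖ ^ 2)) (fun n => by fun_prop)
  refine le_trans (le_of_eq ?_) (h4.trans (liminf_le_of_frequently_le'
    (Frequently.of_forall fun N => (poly_int _ N).trans (ENNReal.ofReal_le_ofReal ?_))))
  · apply setLIntegral_congr_fun measurableSet_ball
    intro z hz
    have := (co_sum (hg.deriv isOpen_ball) (mem_ball_zero_iff.1 hz)).tendsto_sum_nat
    exact (ENNReal.tendsto_ofReal ((this.norm.pow 2).const_mul (1 - ‖z‖))).liminf_eq.symm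
  · apply mul_le_mul_of_nonneg_left _ (by positivity)
    have h1 := sum_le hg h (N + 1)
    rw [Finset.sum_range_succ'] at h1
    have h2 : co g 0 = g 0 := by simp [co]
    rw [h2] at h1
    refine le_trans (le_of_eq (Finset.sum_congr rfl fun k _ => ?_)) (le_sub_iff_add_le.2 h1)
    have : ‖(k + 1 : ℂ)‖ = k + 1 := by exact_mod_cast Complex.norm_natCast (k + 1)
    rw [co_deriv, norm_mul, this]
    field_simp

lemma bdd_II {p : ℝ} (hp : 2 ≤ p) {g : ℂ → ℂ} (hg : DifferentiableOn ℂ g (ball 0 1))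
    (h : ∀ z ∈ ball (0 : ℂ) 1, ‖g z‖ ≤ 1) :
    II p (deriv g) ≤ ENNReal.ofReal (2 ^ (p - 2)) * ENNReal.ofReal (2 * π * (1 - ‖g 0‖ ^ 2)) := by
  refine le_trans ?_ (mul_le_mul_right (bdd_I hg h) _)
  rw [← lintegral_const_mul' _ _ ENNReal.ofReal_ne_top]
  apply setLIntegral_mono' measurableSet_ball
  intro z hz
  have hz1 := mem_ball_zero_iff.1 hz
  have h0 : 0 < 1 - ‖z‖ := by linarith
  have h1 := deriv_bd1 hg h hz1
  rw [mul_one, le_div_iff₀' h0] at h1
  rw [← ENNReal.ofReal_mul (by positivity)]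
  apply ENNReal.ofReal_le_ofReal
  have h2 := Real.rpow_le_rpow (by positivity) h1 (sub_nonneg.2 hp)
  refine le_trans (le_of_eq ?_) (mul_le_mul_of_nonneg_right h2 (by positivity))
  rw [Real.mul_rpow h0.le (norm_nonneg _), show p - 1 = (p - 2) + 1 by ring, Real.rpow_add_one h0.ne',
    ← Real.rpow_two]
  nth_rewrite 2 [show p = (p - 2) + 2 by ring]
  rw [Real.rpow_add' (norm_nonneg _) (by linarith)]
  ring

noncomputable def HH (u : ℂ → ℝ) (z : ℂ) : ℂ :=
  Real.circleAverage (fun ζ => herglotzRieszKernel 0 z ζ • (u ζ : ℂ)) 0 1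

lemma ci_of {u : ℂ → ℝ} (hu : CircleIntegrable u 0 1) : CircleIntegrable (fun ζ => (u ζ : ℂ)) 0 1 := by
  simp only [CircleIntegrable, intervalIntegrable_iff] at hu ⊢
  exact Complex.ofRealCLM.integrable_comp hu

lemma HH_diff {u : ℂ → ℝ} (hu : CircleIntegrable u 0 1) : DifferentiableOn ℂ (HH u) (ball 0 1) :=
  differentiableOn_circleAverage_herglotzRieszKernel_smul (ci_of hu)

lemma HH_add {u v : ℂ → ℝ} (hu : CircleIntegrable u 0 1) (hv : CircleIntegrable v 0 1) {z : ℂ}
    (hz : z ∈ ball (0 : ℂ) 1) : HH (fun ζ => u ζ + v ζ) z = HH u z + HH v z := by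
  have a := continuousOn_herglotzRieszKernel_sphere hz
  refine Eq.trans ?_ (Real.circleAverage_fun_add ((ci_of hu).continuousOn_smul a)
    ((ci_of hv).continuousOn_smul a))
  unfold HH
  congr 1
  ext ζ
  simp [mul_add]

lemma HH_re {u : ℂ → ℝ} (hu : CircleIntegrable u 0 1) {a : ℝ} (h : ∀ ζ, u ζ ≤ a) {z : ℂ}
    (hz : z ∈ ball (0 : ℂ) 1) : (HH u z).re ≤ a := by
  have hc : ContinuousOn (Complex.re ∘ herglotzRieszKernel 0 z) (sphere 0 |1|) :=
    Complex.continuous_re.comp_continuousOn (continuousOn_herglotzRieszKernel_sphere hz)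
  have h1 := (diffContOnCl_const (𝕜 := ℂ) (c := (a : ℂ)) (s := ball (0 : ℂ) 1)
    ).circleAverage_re_herglotzRieszKernel_smul hz
  have h2 : CircleIntegrable ((Complex.re ∘ herglotzRieszKernel 0 z) • fun _ : ℂ => a) 0 1 :=
    (circleIntegrable_const a 0 1).continuousOn_smul hc
  have h3 : Real.circleAverage ((Complex.re ∘ herglotzRieszKernel 0 z) • fun _ : ℂ => a) 0 1
      = a := by
    apply Complex.ofReal_injective
    rw [← h1]
    refine (Complex.ofRealCLM.circleAverage_comp_comm h2).symm.trans ?_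
    congr 1
    ext ζ
    simp
  rw [HH, re_circleAverage_herglotzRieszKernel_smul hu hz, ← h3]
  apply Real.circleAverage_mono (hu.continuousOn_smul hc) h2
  intro ζ hζ
  rw [abs_one] at hζ
  have := le_re_herglotzRieszKernel hζ hz
  refine mul_le_mul_of_nonneg_left (h ζ) (le_trans (div_nonneg ?_ (by positivity)) this)
  rw [sub_zero]
  linarith [mem_ball_zero_iff.1 hz]

lemma HH_zero {u : ℂ → ℝ} (hu : CircleIntegrable u 0 1) :
    HH u 0 = (Real.circleAverage u 0 1 : ℝ) := by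
  refine Eq.trans ?_ (Complex.ofRealCLM.circleAverage_comp_comm hu)
  apply Real.circleAverage_congr_sphere
  intro ζ hζ
  have : ζ ≠ 0 := by rintro rfl; simp at hζ
  simp [herglotzRieszKernel, this]

lemma ci_min {u : ℂ → ℝ} (hu : CircleIntegrable u 0 1) (a : ℝ) :
    CircleIntegrable (fun ζ => min (-u ζ) a) 0 1 := by
  simp only [CircleIntegrable, intervalIntegrable_iff] at hu ⊢
  exact hu.neg.inf (integrableOn_const (by simp [uIoc]))

lemma avg_tend {u : ℂ → ℝ} (hu : CircleIntegrable u 0 1) :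
    Tendsto (fun N : ℕ => Real.circleAverage (fun ζ => u ζ + min (-u ζ) N) 0 1) atTop (𝓝 0) := by
  have := intervalIntegral.tendsto_integral_filter_of_dominated_convergence (μ := volume)
    (a := 0) (b := 2 * π) (l := atTop)
    (F := fun (N : ℕ) θ => u (circleMap 0 1 θ) + min (-u (circleMap 0 1 θ)) N) (f := fun _ => 0)
    (fun θ => |u (circleMap 0 1 θ)|) ?_ ?_ hu.abs ?_
  · simp only [Real.circleAverage_def]
    simpa using this.const_smul (2 * π)⁻¹
  · exact Eventually.of_forall fun N =>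
      (intervalIntegrable_iff.1 (hu.add (ci_min hu N))).aestronglyMeasurable
  · refine Eventually.of_forall fun N => Eventually.of_forall fun θ _ => ?_
    have : (0 : ℝ) ≤ N := Nat.cast_nonneg N
    rw [Real.norm_eq_abs, abs_le]
    have a1 := neg_abs_le (u (circleMap 0 1 θ))
    have a2 := abs_nonneg (u (circleMap 0 1 θ))
    constructor
    · rcases min_choice (-u (circleMap 0 1 θ)) N with h | h <;> rw [h] <;> linarith
    · linarith [min_le_left (-u (circleMap 0 1 θ)) N]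
  · refine Eventually.of_forall fun θ _ => tendsto_const_nhds.congr' ?_
    filter_upwards [tendsto_natCast_atTop_atTop.eventually_ge_atTop (-u (circleMap 0 1 θ))]
      with N hN
    rw [min_eq_left hN, add_neg_cancel]

lemma Appr.congr {p : ℝ} {f f' g g' : ℂ → ℂ} (h : Appr p f g) (h1 : EqOn f f' (ball 0 1))
    (h2 : EqOn g g' (ball 0 1)) : Appr p f' g' := by
  obtain ⟨q, a, b⟩ := h
  refine ⟨q, ?_, b.congr fun n => II_congr p fun z hz => ?_⟩
  · rwa [← h1 (mem_ball_self one_pos), ← h2 (mem_ball_self one_pos)]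
  · have e1 : EqOn (fun w => (q n).eval w * f w) (fun w => (q n).eval w * f' w) (ball 0 1) :=
      fun w hw => by simp only [h1 hw]
    simp only [e1.deriv isOpen_ball hz, h2.deriv isOpen_ball hz]

lemma ext_meas {f : ℂ → ℂ} (hf : DifferentiableOn ℂ f (ball 0 1)) :
    ∃ F : ℂ → ℂ, Measurable F ∧ EqOn F f (ball 0 1) := by
  classical
  exact ⟨(ball 0 1).piecewise f 0, hf.continuousOn.measurable_piecewise continuousOn_const
    measurableSet_ball, fun z hz => piecewise_eq_of_mem _ _ _ hz⟩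

theorem appr_mul' {p : ℝ} (hp : 1 ≤ p) {f φ : ℂ → ℂ}
    (hf : DifferentiableOn ℂ f (ball 0 1)) (hφ : DifferentiableOn ℂ φ (ball 0 1)) {M : ℝ}
    (hM : ∀ z ∈ ball (0 : ℂ) 1, ‖φ z‖ ≤ M) (hI : II p (deriv f) ≠ ⊤)
    (hI2 : II p (deriv fun z => φ z * f z) ≠ ⊤) : Appr p f (fun z => φ z * f z) := by
  obtain ⟨F, m1, e1⟩ := ext_meas hf
  obtain ⟨Φ, m2, e2⟩ := ext_meas hφ
  have e3 : EqOn (fun z => Φ z * F z) (fun z => φ z * f z) (ball 0 1) :=
    fun w hw => by simp only [e1 hw, e2 hw]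
  refine (appr_mul hp m1 m2 (hf.congr e1) (hφ.congr e2) (M := M) ?_ ?_ ?_).congr e1 e3
  · intro z hz
    rw [e2 hz]; exact hM z hz
  · rwa [II_congr p (e1.deriv isOpen_ball)]
  · rwa [II_congr p (e3.deriv isOpen_ball)]

theorem main {p : ℝ} (hp : 2 ≤ p) {f : ℂ → ℂ} {c : ℂ} (hc : c ≠ 0) {ψ : ℂ → ℝ}
    (hψ : CircleIntegrable ψ 0 1) (hf : ∀ z ∈ ball (0 : ℂ) 1, f z = c * Complex.exp (HH ψ z))
    (hI : II p (deriv f) ≠ ⊤) : Appr p f (fun _ => 1) := by
  have hfd : DifferentiableOn ℂ f (ball 0 1) := ((HH_diff hψ).cexp.const_mul c).congr hf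
  obtain ⟨G, hG⟩ : ∃ G : ℕ → ℂ → ℂ, G = fun (N : ℕ) z =>
    Complex.exp (HH (fun ζ => ψ ζ + min (-ψ ζ) N) z) := ⟨_, rfl⟩
  have hi : ∀ N : ℕ, CircleIntegrable (fun ζ => ψ ζ + min (-ψ ζ) N) 0 1 := fun N =>
    hψ.add (ci_min hψ N)
  have hGd : ∀ N, DifferentiableOn ℂ (G N) (ball 0 1) := fun N => by
    rw [hG]; exact (HH_diff (hi N)).cexp
  have hG1 : ∀ N, ∀ z ∈ ball (0 : ℂ) 1, ‖G N z‖ ≤ 1 := fun N z hz => by
    rw [hG, Complex.norm_exp, Real.exp_le_one_iff]
    exact HH_re (hi N) (fun ζ => by linarith [min_le_left (-ψ ζ) N]) hz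
  have hG0 : Tendsto (fun N => G N 0) atTop (𝓝 1) := by
    have := (Complex.continuous_exp.tendsto _).comp
      ((Complex.continuous_ofReal.tendsto _).comp (avg_tend hψ))
    rw [Complex.ofReal_zero, Complex.exp_zero] at this
    refine this.congr fun N => ?_
    rw [hG]
    simp only [HH_zero (hi N), Function.comp]
  apply Appr.lim (by linarith) (G := G) _ hG0
  · have t1 := ENNReal.tendsto_ofReal (((hG0.norm.pow 2).const_sub 1).const_mul (2 * π))
    rw [norm_one, one_pow, sub_self, mul_zero, ENNReal.ofReal_zero] at t1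
    refine tend_cmul ENNReal.ofReal_ne_top t1 (Eventually.of_forall fun N =>
      le_trans (le_of_eq ?_) (bdd_II hp (hGd N) (hG1 N)))
    simp
  · intro N
    have e : EqOn (fun z => c⁻¹ * Complex.exp (HH (fun ζ => min (-ψ ζ) N) z) * f z) (G N)
        (ball 0 1) := fun z hz => by
      rw [hG]
      simp only [hf z hz, HH_add hψ (ci_min hψ N) hz, Complex.exp_add]
      field_simp
    refine (appr_mul' (by linarith) hfd ((HH_diff (ci_min hψ N)).cexp.const_mul c⁻¹)
      (M := ‖c⁻¹‖ * Real.exp N) ?_ hI ?_).congr (fun _ _ => rfl) e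
    · intro z hz
      rw [norm_mul, Complex.norm_exp]
      gcongr
      exact HH_re (ci_min hψ N) (fun ζ => min_le_right _ _) hz
    · rw [II_congr p (e.deriv isOpen_ball)]
      exact ne_top_of_le_ne_top (ENNReal.mul_ne_top ENNReal.ofReal_ne_top ENNReal.ofReal_ne_top)
        (bdd_II hp (hGd N) (hG1 N))

end Pool.Agent.H.MP_57350d_an
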